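import Pool.Agent.H52.VG.RO

/-!
# MP_70ba79_ag, board `vyc_modules`: RS (elementary facts on `dir`, `res`, homogeneous polynomials)
-/

set_option autoImplicit false

namespace Pool.Agent.H52.VG

open MvPolynomial SC Pool.Agent.H27.LV Pool.Agent.H17.VG

section
variable {K : Type} [Field K] {n : ℕ}

theorem dir_add (w : Fin (n + 1) → K) (G G' : MvPolynomial (Fin (n + 1)) K) :
    dir w (G + G') = dir w G + dir w G' := by
  unfold dir
  simp only [map_add, mul_add, Finset.sum_add_distrib]

theorem dir_mul (w : Fin (n + 1) → K) (G G' : MvPolynomial (Fin (n + 1)) K) :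
    dir w (G * G') = dir w G * G' + G * dir w G' := by
  unfold dir
  rw [Finset.sum_mul, Finset.mul_sum, ← Finset.sum_add_distrib]
  refine Finset.sum_congr rfl fun i _ => ?_
  rw [pderiv_mul]
  ring

theorem dir_C (w : Fin (n + 1) → K) (a : K) :
    dir w (C a : MvPolynomial (Fin (n + 1)) K) = 0 := by
  unfold dir
  simp

theorem dir_X (w : Fin (n + 1) → K) (i : Fin (n + 1)) :
    dir w (X i : MvPolynomial (Fin (n + 1)) K) = C (w i) := by
  unfold dir
  rw [Finset.sum_eq_single i]
  · rw [pderiv_X_self, mul_one]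
  · intro j _ hj
    rw [pderiv_X_of_ne (Ne.symm hj), mul_zero]
  · intro h
    exact absurd (Finset.mem_univ i) h

theorem dir_sum {ι : Type} (s : Finset ι) (w : Fin (n + 1) → K)
    (f : ι → MvPolynomial (Fin (n + 1)) K) :
    dir w (∑ i ∈ s, f i) = ∑ i ∈ s, dir w (f i) := by
  classical
  induction s using Finset.induction_on with
  | empty => unfold dir; simp
  | insert a s ha ih => rw [Finset.sum_insert ha, Finset.sum_insert ha, dir_add, ih]

theorem dir_lin (w ξ : Fin (n + 1) → K) : dir w (lin ξ) = C (∑ i, ξ i * w i) := by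
  unfold lin
  rw [dir_sum, map_sum]
  refine Finset.sum_congr rfl fun i _ => ?_
  rw [dir_mul, dir_C, dir_X, zero_mul, zero_add, C_mul]

theorem dir_comb (a b : K) (w w' : Fin (n + 1) → K) (G : MvPolynomial (Fin (n + 1)) K) :
    dir (a • w + b • w') G = C a * dir w G + C b * dir w' G := by
  unfold dir
  rw [Finset.mul_sum, Finset.mul_sum, ← Finset.sum_add_distrib]
  refine Finset.sum_congr rfl fun i _ => ?_
  simp only [Pi.add_apply, Pi.smul_apply, smul_eq_mul, C_add, C_mul]
  ring

theorem dir_hom {e : ℕ} {G : MvPolynomial (Fin (n + 1)) K} (w : Fin (n + 1) → K)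
    (hG : G.IsHomogeneous (e + 1)) : (dir w G).IsHomogeneous e := by
  unfold dir
  apply IsHomogeneous.sum
  intro i _
  exact (hG.pderiv (i := i)).C_mul (w i)

/-- Euler's formula -/
theorem euler {e : ℕ} {G : MvPolynomial (Fin (n + 1)) K} (hG : G.IsHomogeneous e) :
    ∑ i, X i * pderiv i G = (e : MvPolynomial (Fin (n + 1)) K) * G := by
  have h := hG.sum_X_mul_pderiv
  rw [h, nsmul_eq_mul]

theorem res_deriv (x y : Fin (n + 1) → K) (G : MvPolynomial (Fin (n + 1)) K) :
    Polynomial.derivative (res x y G) = res x y (dir y G) := by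
  induction G using MvPolynomial.induction_on with
  | C a => rw [res_C, dir_C, Polynomial.derivative_C]; exact (map_zero _).symm
  | add p q hp hq => rw [res_add, dir_add, res_add, map_add, hp, hq]
  | mul_X p i hp =>
    rw [res_mul, dir_mul, res_add, res_mul, res_mul, Polynomial.derivative_mul, hp, dir_X, res_C,
      res_X]
    simp

theorem res_coeff_zero (x y : Fin (n + 1) → K) (G : MvPolynomial (Fin (n + 1)) K) :
    (res x y G).coeff 0 = eval x G := by
  rw [Polynomial.coeff_zero_eq_eval_zero]
  induction G using MvPolynomial.induction_on with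
  | C a => rw [res_C]; simp
  | add p q hp hq => rw [res_add, Polynomial.eval_add, hp, hq, map_add]
  | mul_X p i hp =>
    rw [res_mul, Polynomial.eval_mul, hp, map_mul, res_X]
    simp

theorem res_natDegree {e : ℕ} (x y : Fin (n + 1) → K) {G : MvPolynomial (Fin (n + 1)) K}
    (hG : G.IsHomogeneous e) : (res x y G).natDegree ≤ e := by
  have hl : ∀ i, (Polynomial.C (x i) + Polynomial.C (y i) * Polynomial.X).natDegree ≤ 1 := by
    intro i
    have h1 := Polynomial.natDegree_add_le (Polynomial.C (x i))
      (Polynomial.C (y i) * Polynomial.X)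
    have h2 : (Polynomial.C (y i) * Polynomial.X : Polynomial K).natDegree ≤ 1 :=
      (Polynomial.natDegree_C_mul_le _ _).trans Polynomial.natDegree_X_le
    have h3 : (Polynomial.C (x i) : Polynomial K).natDegree = 0 := Polynomial.natDegree_C _
    omega
  rw [G.as_sum, res_sum]
  apply Polynomial.natDegree_sum_le_of_forall_le
  intro m hm
  have h4 : m.degree = e := by
    have := hG (mem_support_iff.mp hm)
    rw [← this, Finsupp.degree_eq_weight_one]
    rfl
  unfold res
  rw [aeval_monomial]
  refine (Polynomial.natDegree_mul_le).trans ?_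
  have h5 : ((algebraMap K (Polynomial K)) (coeff m G)).natDegree = 0 :=
    Polynomial.natDegree_C _
  rw [h5, zero_add]
  unfold Finsupp.prod
  refine (Polynomial.natDegree_prod_le _ _).trans ?_
  rw [← h4, Finsupp.degree_apply]
  refine Finset.sum_le_sum fun i _ => ?_
  refine (Polynomial.natDegree_pow_le).trans ?_
  calc m i * _ ≤ m i * 1 := Nat.mul_le_mul_left _ (hl i)
    _ = m i := mul_one _

theorem res_dir_smul (x y w : Fin (n + 1) → K) (G : MvPolynomial (Fin (n + 1)) K) :
    res x y (dir w G) = ∑ i, Polynomial.C (w i) * res x y (pderiv i G) := by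
  unfold dir
  rw [res_sum]
  exact Finset.sum_congr rfl fun i _ => by rw [res_mul, res_C]

theorem res_euler {e : ℕ} (x y : Fin (n + 1) → K) {G : MvPolynomial (Fin (n + 1)) K}
    (hG : G.IsHomogeneous e) : res x y (dir x G) + Polynomial.X * res x y (dir y G) =
    (e : Polynomial K) * res x y G := by
  have h := congrArg (res x y) (euler hG)
  rw [res_sum, res_mul] at h
  have h1 : res x y ((e : MvPolynomial (Fin (n + 1)) K)) = (e : Polynomial K) := map_natCast _ _
  rw [h1] at h
  rw [← h, res_dir_smul, res_dir_smul, Finset.mul_sum, ← Finset.sum_add_distrib]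
  refine Finset.sum_congr rfl fun i _ => ?_
  rw [res_mul, res_X]
  ring

theorem eval_euler {e : ℕ} (x : Fin (n + 1) → K) {G : MvPolynomial (Fin (n + 1)) K}
    (hG : G.IsHomogeneous e) : eval x (dir x G) = e * eval x G := by
  have h := congrArg (eval x) (euler hG)
  rw [map_sum, map_mul, map_natCast] at h
  rw [← h]
  unfold dir
  rw [map_sum]
  refine Finset.sum_congr rfl fun i _ => ?_
  rw [map_mul, map_mul, eval_C, eval_X]

theorem res_zero_dir {e : ℕ} (x y : Fin (n + 1) → K) {G : MvPolynomial (Fin (n + 1)) K}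
    (hG : G.IsHomogeneous e) (h : res x y G = 0) :
    res x y (dir x G) = 0 ∧ res x y (dir y G) = 0 := by
  have h1 : res x y (dir y G) = 0 := by
    rw [← res_deriv, h, map_zero]
  have h2 := res_euler x y hG
  rw [h1, h, mul_zero, mul_zero, add_zero] at h2
  exact ⟨h2, h1⟩

end

theorem rs : T_RS := by
  intro K _ n e G G' w w' ξ x y a b
  exact ⟨res_add x y G G', res_mul x y G G', res_C x y a, res_lin x y ξ, dir_mul w G G',
    dir_lin w ξ, dir_comb a b w w' G, res_coeff_zero x y G, res_deriv x y G, eval_euler x,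
    res_euler x y, res_natDegree x y, dir_hom w, res_zero_dir x y⟩

end Pool.Agent.H52.VG
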