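import Pool.Agent.H52.VG.RS

/-!
# MP_70ba79_ag, board `vyc_modules`: DG (degenerate restrictions have at most one zero)
-/

set_option autoImplicit false

namespace Pool.Agent.H52.VG

open MvPolynomial SC Pool.Agent.H27.LV Pool.Agent.H17.VG

/-- the solutions of `(1 + a T) P' = d a P` -/
theorem ode {K : Type} [Field K] [CharZero K] (d : ℕ) (a : K) (P : Polynomial K)
    (h : (1 + Polynomial.C a * Polynomial.X) * Polynomial.derivative P =
      Polynomial.C (d * a) * P) :
    P = Polynomial.C (P.coeff 0) * (1 + Polynomial.C a * Polynomial.X) ^ d := by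
  set B : Polynomial K := 1 + Polynomial.C a * Polynomial.X with hB
  -- both sides satisfy the same recursion
  have key : ∀ Q : Polynomial K, B * Polynomial.derivative Q = Polynomial.C (d * a) * Q →
      Q.coeff 0 = 0 → Q = 0 := by
    intro Q hQ h0
    have h1 : ∀ j, Q.coeff j = 0 := by
      intro j
      induction j with
      | zero => exact h0
      | succ j ih =>
        have h2 := congrArg (fun R => Polynomial.coeff R j) hQ
        simp only [hB, add_mul, one_mul, Polynomial.coeff_add, Polynomial.coeff_C_mul, ih,
          mul_zero, mul_assoc, Polynomial.coeff_derivative] at h2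
        have h3 : (Polynomial.X * Polynomial.derivative Q).coeff j = 0 := by
          cases j with
          | zero => simp
          | succ i =>
            rw [Polynomial.coeff_X_mul, Polynomial.coeff_derivative, ih, zero_mul]
        rw [h3, mul_zero, add_zero] at h2
        rcases mul_eq_zero.mp h2 with h4 | h4
        · exact h4
        · exfalso
          exact (by exact_mod_cast Nat.succ_ne_zero j : ((j : K) + 1) ≠ 0) h4
    ext j
    rw [h1 j, Polynomial.coeff_zero]
  have hBd : Polynomial.derivative B = Polynomial.C a := by
    rw [hB]
    simp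
  have h5 : B * Polynomial.derivative (Polynomial.C (P.coeff 0) * B ^ d) =
      Polynomial.C (d * a) * (Polynomial.C (P.coeff 0) * B ^ d) := by
    cases d with
    | zero => simp
    | succ d =>
      rw [Polynomial.derivative_C_mul, Polynomial.derivative_pow, hBd]
      simp only [Nat.add_sub_cancel, map_mul, map_natCast, map_add, map_one, Nat.cast_add,
        Nat.cast_one]
      ring
  have h6 : P - Polynomial.C (P.coeff 0) * B ^ d = 0 := by
    apply key
    · rw [map_sub, mul_sub, h, h5]
      ring
    · rw [Polynomial.coeff_sub, Polynomial.coeff_C_mul]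
      have h7 : (B ^ d).coeff 0 = 1 := by
        rw [Polynomial.coeff_zero_eq_eval_zero, hB]
        simp
      rw [h7]
      ring
  exact sub_eq_zero.mp h6

theorem dg : T_DG := by
  intro K _ _ n e F x y w hF hxy hx htwo hw hres
  rw [Submodule.mem_span_pair] at hw
  obtain ⟨w0, w1, rfl⟩ := hw
  rw [dir_comb, res_add, res_mul, res_mul, res_C, res_C, ← res_deriv x y F] at hres
  set P := res x y F with hP
  have he := res_euler x y hF
  rw [← res_deriv x y F, ← hP] at he
  have hP0 : P.coeff 0 = eval x F := res_coeff_zero x y F
  have hdx : res x y (dir x F) = ((e + 1 : ℕ) : Polynomial K) * P -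
      Polynomial.X * Polynomial.derivative P := by
    rw [← he]
    ring
  rw [hdx] at hres
  by_cases h1 : w1 = 0
  · by_cases h0 : w0 = 0
    · rw [h0, h1]
      simp
    · exfalso
      rw [h1] at hres
      have h2 := congrArg (fun R => Polynomial.coeff R 0) hres
      simp only [map_zero, zero_mul, add_zero, Polynomial.coeff_C_mul, Polynomial.coeff_sub,
        Polynomial.coeff_zero] at h2
      have h3 : (Polynomial.X * Polynomial.derivative P).coeff 0 = 0 := by simp
      have h4 : (((e + 1 : ℕ) : Polynomial K) * P).coeff 0 = ((e + 1 : ℕ) : K) * P.coeff 0 := by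
        rw [← Polynomial.C_eq_natCast, Polynomial.coeff_C_mul]
      rw [h3, h4, hP0, sub_zero] at h2
      rcases mul_eq_zero.mp h2 with h5 | h5
      · exact h0 h5
      · rcases mul_eq_zero.mp h5 with h6 | h6
        · exact (by exact_mod_cast Nat.succ_ne_zero e : ((e + 1 : ℕ) : K) ≠ 0) h6
        · exact hx h6
  · exfalso
    apply htwo
    set a : K := -(w0 / w1) with ha
    have hode : (1 + Polynomial.C a * Polynomial.X) * Polynomial.derivative P =
        Polynomial.C (((e + 1 : ℕ) : K) * a) * P := by
      have h2 : Polynomial.C w1 * ((1 + Polynomial.C a * Polynomial.X) *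
          Polynomial.derivative P - Polynomial.C (((e + 1 : ℕ) : K) * a) * P) = 0 := by
        have h3 : w1 * a = -w0 := by
          rw [ha]
          field_simp
        have h4 : Polynomial.C w1 * Polynomial.C a = -Polynomial.C w0 := by
          rw [← Polynomial.C_mul, h3, Polynomial.C_neg]
        have h5 : Polynomial.C (((e + 1 : ℕ) : K) * a) =
            ((e + 1 : ℕ) : Polynomial K) * Polynomial.C a := by
          rw [Polynomial.C_mul, Polynomial.C_eq_natCast]
        rw [h5]
        linear_combination hres + (Polynomial.X * Polynomial.derivative P -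
          ((e + 1 : ℕ) : Polynomial K) * P) * h4
      rcases mul_eq_zero.mp h2 with h6 | h6
      · exfalso
        exact h1 (Polynomial.C_eq_zero.mp h6)
      · exact sub_eq_zero.mp h6
    have hsol := ode (e + 1) a P hode
    refine ⟨algebraMap K _ a, 0, e + 1, 0, rfl, ?_⟩
    rw [← hP]
    conv_lhs => rw [hsol]
    rw [hP0, Polynomial.map_mul, Polynomial.map_pow, Polynomial.map_C, Polynomial.map_add,
      Polynomial.map_mul, Polynomial.map_one, Polynomial.map_C, Polynomial.map_X]
    simp

end Pool.Agent.H52.VG
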