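import Pool.Agent.H52.VG.RS

/-!
# MP_70ba79_ag, board `vyc_modules`: IL (the forms which vanish on a line)
-/

set_option autoImplicit false

namespace Pool.Agent.H52.VG

open MvPolynomial SC Pool.Agent.H27.LV Pool.Agent.H17.VG

section
variable {K : Type} [Field K] {n : ℕ}

/-- scaling of homogeneous polynomials -/
theorem aeval_scale {A : Type} [CommRing A] [Algebra K A] {d : ℕ}
    {G : MvPolynomial (Fin (n + 1)) K} (hG : G.IsHomogeneous d) (c : A) (f : Fin (n + 1) → A) :
    aeval (fun i => c * f i) G = c ^ d * aeval f G := by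
  conv_lhs => rw [G.as_sum]
  conv_rhs => rw [G.as_sum]
  rw [map_sum, map_sum, Finset.mul_sum]
  refine Finset.sum_congr rfl fun m hm => ?_
  have h4 : m.degree = d := by
    have := hG (mem_support_iff.mp hm)
    rw [← this, Finsupp.degree_eq_weight_one]
    rfl
  rw [aeval_monomial, aeval_monomial, ← h4, Finsupp.degree_apply]
  unfold Finsupp.prod
  simp only [mul_pow]
  rw [Finset.prod_mul_distrib, Finset.prod_pow_eq_pow_sum]
  ring

/-- the substitution `X_i ↦ x_i a + y_i b` -/
noncomputable def sub2 (x y : Fin (n + 1) → K) (a b : MvPolynomial (Fin (n + 1)) K) :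
    MvPolynomial (Fin (n + 1)) K →ₐ[K] MvPolynomial (Fin (n + 1)) K :=
  aeval (fun i => C (x i) * a + C (y i) * b)

theorem sub2_zero {d : ℕ} {G : MvPolynomial (Fin (n + 1)) K} (hG : G.IsHomogeneous d)
    (x y : Fin (n + 1) → K) (a b : MvPolynomial (Fin (n + 1)) K) (ha : a ≠ 0)
    (h : res x y G = 0) : sub2 x y a b G = 0 := by
  let Q := FractionRing (MvPolynomial (Fin (n + 1)) K)
  let ι : MvPolynomial (Fin (n + 1)) K →ₐ[K] Q := IsScalarTower.toAlgHom K _ Q
  have hι : Function.Injective ι := IsFractionRing.injective (MvPolynomial (Fin (n + 1)) K) Q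
  have ha' : ι a ≠ 0 := fun h0 => ha (hι (h0.trans (map_zero ι).symm))
  apply hι
  rw [map_zero]
  have h1 : ι (sub2 x y a b G) = aeval (fun i => ι a * (algebraMap K Q (x i) +
      algebraMap K Q (y i) * (ι b / ι a))) G := by
    unfold sub2
    rw [← AlgHom.comp_apply]
    have h2 : (ι.comp (aeval (fun i => C (x i) * a + C (y i) * b))) =
        aeval (fun i => ι a * (algebraMap K Q (x i) + algebraMap K Q (y i) * (ι b / ι a))) := by
      apply MvPolynomial.algHom_ext
      intro i
      rw [AlgHom.comp_apply, aeval_X, aeval_X, map_add, map_mul, map_mul]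
      have hC : ∀ c : K, ι (C c) = algebraMap K Q c := fun c => ι.commutes c
      rw [hC, hC]
      have h5 : ι a * (ι b / ι a) = ι b := by
        rw [mul_comm]
        exact div_mul_cancel₀ _ ha'
      have h6 : ι a * (algebraMap K Q (x i) + algebraMap K Q (y i) * (ι b / ι a)) =
          algebraMap K Q (x i) * ι a + algebraMap K Q (y i) * (ι a * (ι b / ι a)) := by ring
      rw [h6, h5]
    rw [h2]
  rw [h1, aeval_scale hG]
  have h3 : aeval (fun i => algebraMap K Q (x i) + algebraMap K Q (y i) * (ι b / ι a)) G =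
      Polynomial.aeval (ι b / ι a) (res x y G) := by
    unfold res
    rw [← AlgHom.comp_apply]
    have h4 : ((Polynomial.aeval (ι b / ι a) : Polynomial K →ₐ[K] Q).comp
        (aeval (fun i => Polynomial.C (x i) + Polynomial.C (y i) * Polynomial.X))) =
        aeval (fun i => algebraMap K Q (x i) + algebraMap K Q (y i) * (ι b / ι a)) := by
      apply MvPolynomial.algHom_ext
      intro i
      rw [AlgHom.comp_apply, aeval_X, aeval_X, map_add, map_mul, Polynomial.aeval_C,
        Polynomial.aeval_C, Polynomial.aeval_X]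
    rw [h4]
  rw [h3, h, map_zero, mul_zero]

theorem sub2_diff (x y : Fin (n + 1) → K) (a b : MvPolynomial (Fin (n + 1)) K)
    (G : MvPolynomial (Fin (n + 1)) K) :
    ∃ Q : Fin (n + 1) → MvPolynomial (Fin (n + 1)) K,
      G - sub2 x y a b G = ∑ i, (X i - (C (x i) * a + C (y i) * b)) * Q i := by
  induction G using MvPolynomial.induction_on with
  | C c =>
    refine ⟨0, ?_⟩
    have : sub2 x y a b (C c) = C c := (sub2 x y a b).commutes c
    rw [this]
    simp
  | add p q hp hq =>
    obtain ⟨Q, hQ⟩ := hp
    obtain ⟨Q', hQ'⟩ := hq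
    refine ⟨fun i => Q i + Q' i, ?_⟩
    simp only [mul_add, Finset.sum_add_distrib]
    rw [← hQ, ← hQ', map_add]
    ring
  | mul_X p i hp =>
    obtain ⟨Q, hQ⟩ := hp
    classical
    refine ⟨fun j => Q j * X i + (if j = i then sub2 x y a b p else 0), ?_⟩
    simp only [mul_add, Finset.sum_add_distrib]
    have h1 : ∑ j, (X j - (C (x j) * a + C (y j) * b)) * (Q j * X i) =
        (p - sub2 x y a b p) * X i := by
      rw [hQ, Finset.sum_mul]
      exact Finset.sum_congr rfl fun j _ => by ring
    have h2 : ∑ j, (X j - (C (x j) * a + C (y j) * b)) *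
        (if j = i then sub2 x y a b p else 0) =
        (X i - (C (x i) * a + C (y i) * b)) * sub2 x y a b p := by
      rw [Finset.sum_eq_single i]
      · rw [if_pos rfl]
      · intro j _ hj
        rw [if_neg hj, mul_zero]
      · intro h
        exact absurd (Finset.mem_univ _) h
    have h3 : sub2 x y a b (X i) = C (x i) * a + C (y i) * b := by
      unfold sub2
      rw [aeval_X]
    rw [h1, h2, map_mul, h3]
    ring

theorem hom_comp_mul {e : ℕ} {L : MvPolynomial (Fin (n + 1)) K} (hL : L.IsHomogeneous 1)
    (Q : MvPolynomial (Fin (n + 1)) K) :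
    homogeneousComponent (e + 1) (L * Q) = L * homogeneousComponent e Q := by
  classical
  conv_lhs => rw [← sum_homogeneousComponent Q]
  rw [Finset.mul_sum, map_sum]
  have h1 : ∀ i ∈ Finset.range (Q.totalDegree + 1),
      homogeneousComponent (e + 1) (L * homogeneousComponent i Q) =
      if i = e then L * homogeneousComponent e Q else 0 := by
    intro i _
    have h2 : (L * homogeneousComponent i Q).IsHomogeneous (1 + i) :=
      hL.mul (homogeneousComponent_isHomogeneous i Q)
    rw [homogeneousComponent_of_mem (mem_homogeneousSubmodule _ _ |>.mpr h2)]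
    by_cases hi : i = e
    · subst hi
      rw [if_pos rfl, if_pos (by omega)]
    · rw [if_neg hi, if_neg (by omega)]
  rw [Finset.sum_congr rfl h1, Finset.sum_ite_eq']
  split_ifs with h3
  · rfl
  · have h4 : homogeneousComponent e Q = 0 := by
      apply homogeneousComponent_eq_zero
      rw [Finset.mem_range] at h3
      omega
    rw [h4, mul_zero]

end

theorem il : T_IL := by
  intro K _ n e x y hxy G hG hres
  obtain ⟨ξ, η, ⟨h1, h2⟩, h3, h4⟩ := dual_pair hxy
  have ha : lin ξ ≠ 0 := by
    intro h0
    have h5 := res_lin x y ξ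
    rw [h0, h1, h2] at h5
    have h6 : res x y (0 : MvPolynomial (Fin (n + 1)) K) = 0 := map_zero _
    rw [h6] at h5
    simp at h5
  have hs := sub2_zero hG x y (lin ξ) (lin η) ha hres
  obtain ⟨Q, hQ⟩ := sub2_diff x y (lin ξ) (lin η) G
  rw [hs, sub_zero] at hQ
  classical
  -- the linear forms
  set ℓ : Fin (n + 1) → Fin (n + 1) → K := fun i j =>
    (if j = i then 1 else 0) - x i * ξ j - y i * η j with hℓ
  have hlin : ∀ i, X i - (C (x i) * lin ξ + C (y i) * lin η) = lin (ℓ i) := by
    intro i
    unfold lin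
    have h7 : ∑ j, C (ℓ i j) * X j = ∑ j, (C (if j = i then (1 : K) else 0) * X j -
        C (x i) * (C (ξ j) * X j) - C (y i) * (C (η j) * X j)) := by
      refine Finset.sum_congr rfl fun j _ => ?_
      rw [hℓ]
      simp only [C_sub, C_mul]
      ring
    rw [h7, Finset.sum_sub_distrib, Finset.sum_sub_distrib, ← Finset.mul_sum, ← Finset.mul_sum]
    have h8 : ∑ j, C (if j = i then (1 : K) else 0) * X j = X i := by
      rw [Finset.sum_eq_single i]
      · rw [if_pos rfl, C_1, one_mul]
      · intro j _ hj
        rw [if_neg hj, C_0, zero_mul]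
      · intro h
        exact absurd (Finset.mem_univ _) h
    rw [h8]
    ring
  have hval : ∀ (i : Fin (n + 1)) (z : Fin (n + 1) → K), ∑ j, ℓ i j * z j =
      z i - x i * ∑ j, ξ j * z j - y i * ∑ j, η j * z j := by
    intro i z
    have h7 : ∑ j, ℓ i j * z j = ∑ j, ((if j = i then (1 : K) else 0) * z j -
        x i * (ξ j * z j) - y i * (η j * z j)) := by
      refine Finset.sum_congr rfl fun j _ => ?_
      rw [hℓ]
      ring
    rw [h7, Finset.sum_sub_distrib, Finset.sum_sub_distrib, ← Finset.mul_sum, ← Finset.mul_sum]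
    simp
  have hG2 : G = ∑ i, lin (ℓ i) * homogeneousComponent e (Q i) := by
    have h9 := congrArg (homogeneousComponent (e + 1)) hQ
    rw [map_sum, homogeneousComponent_eq_self hG] at h9
    rw [h9]
    refine Finset.sum_congr rfl fun i _ => ?_
    rw [hlin i, hom_comp_mul (lin_hom _)]
  rw [hG2]
  apply Submodule.sum_mem
  intro i _
  apply Submodule.subset_span
  refine ⟨ℓ i, homogeneousComponent e (Q i), ?_, ?_, homogeneousComponent_isHomogeneous _ _, rfl⟩
  · rw [hval, h1, h3]
    ring
  · rw [hval, h2, h4]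
    ring

end Pool.Agent.H52.VG
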