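import Pool.Agent.H17.VG.TargetsB

/-!
# MP_70ba79_ag, board `vyc_modules`: LF (linear forms with given values)
-/

set_option autoImplicit false

namespace Pool.Agent.H52.VG

open MvPolynomial SC Pool.Agent.H27.LV Pool.Agent.H17.VG

/-- functionals of `K ^ (n + 1)` are given by vectors -/
theorem exists_vec {K : Type} [Field K] {n : ℕ} (f : (Fin (n + 1) → K) →ₗ[K] K) :
    ∃ ξ : Fin (n + 1) → K, ∀ z, f z = ∑ i, ξ i * z i := by
  classical
  refine ⟨fun i => f (Pi.single i 1), fun z => ?_⟩
  have h : z = ∑ i, z i • (Pi.single i (1 : K) : Fin (n + 1) → K) := by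
    funext j
    simp [Finset.sum_apply, Pi.single_apply]
  conv_lhs => rw [h]
  rw [map_sum]
  exact Finset.sum_congr rfl fun i _ => by rw [map_smul, smul_eq_mul, mul_comm]

/-- a functional with given values on an independent family -/
theorem exists_fun {K V ι : Type} [Field K] [AddCommGroup V] [Module K V] (v : ι → V)
    (hv : LinearIndependent K v) (c : ι → K) : ∃ f : V →ₗ[K] K, ∀ i, f (v i) = c i := by
  have h1 : ∃ g : V →ₗ[K] K, g ∘ₗ (Submodule.span K (Set.range v)).subtype =
      (Module.Basis.span hv).constr K c := by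
    exact LinearMap.exists_extend _
  obtain ⟨g, hg⟩ := h1
  refine ⟨g, fun i => ?_⟩
  have h2 := LinearMap.congr_fun hg (Module.Basis.span hv i)
  rw [Module.Basis.constr_basis] at h2
  rw [← h2]
  simp [Module.Basis.span_apply]

theorem lf : T_LF := by
  intro K _ n x y hxy
  have key : ∀ (a b : K), ∃ ξ : Fin (n + 1) → K, ∑ i, ξ i * x i = a ∧ ∑ i, ξ i * y i = b := by
    intro a b
    obtain ⟨f, hf⟩ := exists_fun ![x, y] hxy ![a, b]
    obtain ⟨ξ, hξ⟩ := exists_vec f
    refine ⟨ξ, ?_, ?_⟩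
    · rw [← hξ]; exact hf 0
    · rw [← hξ]; exact hf 1
  refine ⟨key 0 1, ?_, ?_⟩
  · obtain ⟨ξ, h, _⟩ := key 1 0
    exact ⟨ξ, h⟩
  · intro w hw
    have h3 : LinearIndependent K ![x, y, w] := by
      have h4 : LinearIndependent K (Fin.snoc ![x, y] w : Fin 3 → (Fin (n + 1) → K)) := by
        rw [linearIndependent_finSnoc]
        refine ⟨hxy, ?_⟩
        rw [Matrix.range_cons, Matrix.range_cons, Matrix.range_empty, Set.union_empty]
        exact hw
      convert h4 using 1
      funext i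
      fin_cases i <;> rfl
    obtain ⟨f, hf⟩ := exists_fun ![x, y, w] h3 ![0, 0, 1]
    obtain ⟨ξ, hξ⟩ := exists_vec f
    refine ⟨ξ, ?_, ?_, ?_⟩
    · rw [← hξ]; exact hf 0
    · rw [← hξ]; exact hf 1
    · rw [← hξ]; exact hf 2

end Pool.Agent.H52.VG
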