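import Pool.Agent.H52.VG.LF

/-!
# MP_70ba79_ag, board `vyc_modules`: RO (restriction to a line is onto)
-/

set_option autoImplicit false

namespace Pool.Agent.H52.VG

open MvPolynomial SC Pool.Agent.H27.LV Pool.Agent.H17.VG

/-- two dual linear forms of a line -/
theorem dual_pair {K : Type} [Field K] {n : ℕ} {x y : Fin (n + 1) → K} (hxy : Indep x y) :
    ∃ ξ η : Fin (n + 1) → K, (∑ i, ξ i * x i = 1 ∧ ∑ i, ξ i * y i = 0) ∧
      (∑ i, η i * x i = 0 ∧ ∑ i, η i * y i = 1) := by
  have key : ∀ (a b : K), ∃ ξ : Fin (n + 1) → K, ∑ i, ξ i * x i = a ∧ ∑ i, ξ i * y i = b := by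
    intro a b
    obtain ⟨f, hf⟩ := exists_fun ![x, y] hxy ![a, b]
    obtain ⟨ξ, hξ⟩ := exists_vec f
    refine ⟨ξ, ?_, ?_⟩
    · rw [← hξ]; exact hf 0
    · rw [← hξ]; exact hf 1
  obtain ⟨ξ, h1⟩ := key 1 0
  obtain ⟨η, h2⟩ := key 0 1
  exact ⟨ξ, η, h1, h2⟩

section
variable {K : Type} [Field K] {n : ℕ}

theorem res_add (x y : Fin (n + 1) → K) (G G' : MvPolynomial (Fin (n + 1)) K) :
    res x y (G + G') = res x y G + res x y G' := map_add _ _ _

theorem res_mul (x y : Fin (n + 1) → K) (G G' : MvPolynomial (Fin (n + 1)) K) :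
    res x y (G * G') = res x y G * res x y G' := map_mul _ _ _

theorem res_C (x y : Fin (n + 1) → K) (a : K) :
    res x y (C a) = Polynomial.C a := by
  unfold res
  rw [aeval_C]
  rfl

theorem res_X (x y : Fin (n + 1) → K) (i : Fin (n + 1)) :
    res x y (X i) = Polynomial.C (x i) + Polynomial.C (y i) * Polynomial.X := by
  unfold res
  rw [aeval_X]

theorem res_sum {ι : Type} (s : Finset ι) (x y : Fin (n + 1) → K)
    (f : ι → MvPolynomial (Fin (n + 1)) K) :
    res x y (∑ i ∈ s, f i) = ∑ i ∈ s, res x y (f i) := map_sum _ _ _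

theorem res_pow (x y : Fin (n + 1) → K) (G : MvPolynomial (Fin (n + 1)) K) (m : ℕ) :
    res x y (G ^ m) = res x y G ^ m := map_pow _ _ _

theorem res_lin (x y ξ : Fin (n + 1) → K) :
    res x y (lin ξ) = Polynomial.C (∑ i, ξ i * x i) +
      Polynomial.C (∑ i, ξ i * y i) * Polynomial.X := by
  unfold lin
  rw [res_sum]
  simp only [res_mul, res_C, res_X]
  simp only [map_sum, Polynomial.C_mul, Finset.sum_mul, mul_add]
  rw [Finset.sum_add_distrib]
  congr 1
  exact Finset.sum_congr rfl fun i _ => by ring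

theorem lin_hom (ξ : Fin (n + 1) → K) : (lin ξ).IsHomogeneous 1 := by
  unfold lin
  apply IsHomogeneous.sum
  intro i _
  exact (isHomogeneous_X K i).C_mul (ξ i)

end

theorem ro : T_RO := by
  intro K _ n e x y hxy P hP
  obtain ⟨ξ, η, ⟨h1, h2⟩, h3, h4⟩ := dual_pair hxy
  refine ⟨∑ j ∈ Finset.range (e + 1), C (P.coeff j) * (lin ξ ^ (e - j) * lin η ^ j), ?_, ?_⟩
  · apply IsHomogeneous.sum
    intro j hj
    have hj' : j ≤ e := by
      have := Finset.mem_range.mp hj
      omega
    have h5 := ((lin_hom ξ).pow (e - j)).mul ((lin_hom η).pow j)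
    have h6 : 1 * (e - j) + 1 * j = e := by omega
    rw [h6] at h5
    exact h5.C_mul _
  · rw [res_sum]
    simp only [res_mul, res_pow, res_C, res_lin, h1, h2, h3, h4]
    simp only [map_one, map_zero, zero_mul, add_zero, one_pow, one_mul, zero_add]
    conv_rhs => rw [P.as_sum_range' (e + 1) (by omega)]
    exact Finset.sum_congr rfl fun j _ => by
      rw [Polynomial.C_mul_X_pow_eq_monomial]

end Pool.Agent.H52.VG
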