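import Pool.Agent.H52.VG.RS

/-!
# MP_70ba79_ag, board `vyc_modules`: SU (velocities of operators whose symbol vanishes at `x`)
-/

set_option autoImplicit false

namespace Pool.Agent.H52.VG

open MvPolynomial SC Pool.Agent.H27.LV Pool.Agent.H17.VG

theorem su : T_SU := by
  intro R K _ _ _ _ n e F x hF hx w
  classical
  have hE : eval x (dir x F) ≠ 0 := by
    rw [eval_euler x hF]
    exact mul_ne_zero (by exact_mod_cast Nat.succ_ne_zero e) hx
  have hx0 : ∃ i, x i ≠ 0 := by
    by_contra h
    push_neg at h
    apply hE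
    unfold dir
    rw [map_sum]
    refine Finset.sum_eq_zero fun i _ => ?_
    rw [h i]
    simp
  obtain ⟨i₀, hi₀⟩ := hx0
  set c : K := -(eval x (dir w F)) / eval x (dir x F) with hc
  set w' : Fin (n + 1) → K := w + c • x with hw'
  have h0 : eval x (dir w' F) = 0 := by
    have h1 := dir_comb (1 : K) c w x F
    rw [one_smul] at h1
    rw [hw', h1, map_add, map_mul, map_mul, eval_C, eval_C, hc]
    field_simp
    ring
  set η : Fin (n + 1) → K := Pi.single i₀ (x i₀)⁻¹ with hη
  have hηx : ∑ j, η j * x j = 1 := by
    rw [Finset.sum_eq_single i₀]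
    · rw [hη, Pi.single_eq_same]
      exact inv_mul_cancel₀ hi₀
    · intro j _ hj
      rw [hη, Pi.single_eq_of_ne hj, zero_mul]
    · intro h
      exact absurd (Finset.mem_univ _) h
  have hrow : ∀ i, ∑ j, (-(w' i) * η j) * x j = -(w' i) := by
    intro i
    calc ∑ j, (-(w' i) * η j) * x j = -(w' i) * ∑ j, η j * x j := by
          rw [Finset.mul_sum]
          exact Finset.sum_congr rfl fun j _ => by ring
      _ = -(w' i) := by rw [hηx, mul_one]
  refine ⟨(0, Matrix.of fun i j => -(w' i) * η j), c, ?_, ?_⟩
  · unfold opF cD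
    rw [map_add, map_sum, map_sum]
    have h2 : ∑ m ∈ F.support, eval x (monomial m ((0 : Derivation R K K) (coeff m F))) = 0 := by
      refine Finset.sum_eq_zero fun m _ => ?_
      simp
    rw [h2, zero_add]
    have h3 : ∀ i, eval x ((∑ j, C (Matrix.of (fun i j => -(w' i) * η j) i j) * X j) *
        pderiv i F) = -(w' i * eval x (pderiv i F)) := by
      intro i
      rw [map_mul, map_sum]
      have h4 : ∑ j, eval x (C (Matrix.of (fun i j => -(w' i) * η j) i j) * X j) = -(w' i) := by
        rw [← hrow i]
        refine Finset.sum_congr rfl fun j _ => ?_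
        rw [map_mul, eval_C, eval_X, Matrix.of_apply]
      rw [h4]
      ring
    have h5 : ∑ i, eval x ((∑ j, C (Matrix.of (fun i j => -(w' i) * η j) i j) * X j) *
        pderiv i F) = -(eval x (dir w' F)) := by
      unfold dir
      rw [map_sum, ← Finset.sum_neg_distrib]
      refine Finset.sum_congr rfl fun i _ => ?_
      rw [h3 i, map_mul, eval_C]
    exact h5.trans (by rw [h0, neg_zero])
  · funext i
    have h6 : opV (R := R) ((0, Matrix.of fun i j => -(w' i) * η j) : Op R K n) x i =
        0 - ∑ j, (-(w' i) * η j) * x j := by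
      unfold opV
      simp
    rw [h6, hrow i, zero_sub, neg_neg, hw']

end Pool.Agent.H52.VG
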